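import Mathlib
import Pool.Agent.Y753.NL.Cur

set_option autoImplicit false

/-! Convergence of integrals of functions of exponential growth; weighted laws. -/

namespace Pool.Agent.V11273.WC

open MeasureTheory Filter Topology ProbabilityTheory

noncomputable section

/-- truncation -/
def tr (f : ℝ → ℝ) (hf : Continuous f) (B : ℝ) (hB : 0 ≤ B) : BoundedContinuousFunction ℝ ℝ :=
  BoundedContinuousFunction.ofNormedAddCommGroup (fun x => max (-B) (min B (f x)))
    (by fun_prop) B (fun x => by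
      rw [Real.norm_eq_abs, abs_le]
      exact ⟨le_max_left _ _, max_le (by linarith) (min_le_left _ _)⟩)

lemma tr_apply (f : ℝ → ℝ) (hf : Continuous f) (B : ℝ) (hB : 0 ≤ B) (x : ℝ) :
    tr f hf B hB x = max (-B) (min B (f x)) := rfl

lemma tr_near {f : ℝ → ℝ} (hf : Continuous f) {C A R : ℝ} (hC : 0 ≤ C) (hA : 0 ≤ A)
    (hb : ∀ x, |f x| ≤ C * Real.exp (A * |x|)) (x : ℝ) :
    |f x - tr f hf (C * Real.exp (A * R)) (by positivity) x| ≤
      C * Real.exp (-R) * (Real.exp ((A + 1) * x) + Real.exp (-(A + 1) * x)) := by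
  rw [tr_apply]
  set B := C * Real.exp (A * R) with hB
  have hB0 : 0 ≤ B := by positivity
  rcases le_or_gt |f x| B with h | h
  · rw [abs_le] at h
    rw [min_eq_right h.2, max_eq_right h.1, sub_self, abs_zero]
    positivity
  · have h1 : |f x - max (-B) (min B (f x))| ≤ |f x| := by
      rcases le_total 0 (f x) with h0 | h0
      · rw [abs_of_nonneg h0] at h ⊢
        rw [min_eq_left h.le, max_eq_right (by linarith), abs_of_nonneg (by linarith)]
        linarith
      · rw [abs_of_nonpos h0] at h ⊢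
        rw [min_eq_right (by linarith), max_eq_left (by linarith), abs_of_nonpos (by linarith)]
        linarith
    have h2 : R < |x| := by
      have h3 := h.trans_le (hb x)
      rw [hB] at h3
      have hC' : 0 < C := by
        rcases hC.lt_or_eq with h4 | h4
        · exact h4
        · rw [← h4, zero_mul, zero_mul] at h3
          exact absurd h3 (lt_irrefl _)
      have h5 := Real.exp_lt_exp.1 (lt_of_mul_lt_mul_left h3 hC)
      exact lt_of_mul_lt_mul_left h5 hA
    have h3 : Real.exp ((A + 1) * |x|) ≤ Real.exp ((A + 1) * x) + Real.exp (-(A + 1) * x) := by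
      rcases le_total 0 x with h0 | h0
      · rw [abs_of_nonneg h0]
        have := Real.exp_pos (-(A + 1) * x)
        linarith
      · rw [abs_of_nonpos h0]
        have := Real.exp_pos ((A + 1) * x)
        have e : (A + 1) * -x = -(A + 1) * x := by ring
        rw [e]
        linarith
    calc |f x - max (-B) (min B (f x))| ≤ |f x| := h1
      _ ≤ C * Real.exp (A * |x|) := hb x
      _ ≤ C * (Real.exp (-R) * Real.exp ((A + 1) * |x|)) := by
          refine mul_le_mul_of_nonneg_left ?_ hC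
          rw [← Real.exp_add]
          exact Real.exp_le_exp.2 (by linarith)
      _ ≤ C * (Real.exp (-R) * (Real.exp ((A + 1) * x) + Real.exp (-(A + 1) * x))) := by gcongr
      _ = _ := by ring

theorem exp_growth {ι : Type*} {l : Filter ι} {μ : ι → ProbabilityMeasure ℝ} {ν : ProbabilityMeasure ℝ}
    (hi : ∀ s : ℝ, ∀ᶠ i in l, Integrable (fun x => Real.exp (s * x)) (μ i : Measure ℝ))
    (hν : ∀ s : ℝ, Integrable (fun x => Real.exp (s * x)) (ν : Measure ℝ))
    (h : ∀ s : ℝ, Tendsto (fun i => ∫ x, Real.exp (s * x) ∂(μ i : Measure ℝ)) l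
      (𝓝 (∫ x, Real.exp (s * x) ∂(ν : Measure ℝ))))
    {f : ℝ → ℝ} (hf : Continuous f) {C A : ℝ} (hb : ∀ x, |f x| ≤ C * Real.exp (A * |x|)) :
    Tendsto (fun i => ∫ x, f x ∂(μ i : Measure ℝ)) l (𝓝 (∫ x, f x ∂(ν : Measure ℝ))) := by
  have hT := Pool.Agent.Y753.NL.curtiss hi h
  have hF := ProbabilityMeasure.tendsto_iff_forall_integral_tendsto.mp hT
  have hC : 0 ≤ C := by
    have := (abs_nonneg _).trans (hb 0)
    rw [abs_zero, mul_zero, Real.exp_zero, mul_one] at this
    exact this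
  obtain ⟨A', hA', hAA'⟩ : ∃ A' : ℝ, 0 ≤ A' ∧ A ≤ A' := ⟨|A|, abs_nonneg _, le_abs_self _⟩
  have hb' : ∀ x, |f x| ≤ C * Real.exp (A' * |x|) := fun x => (hb x).trans
    (mul_le_mul_of_nonneg_left (Real.exp_le_exp.2 (mul_le_mul_of_nonneg_right hAA' (abs_nonneg x))) hC)
  have hfi : ∀ (ρ : ProbabilityMeasure ℝ), Integrable (fun x => Real.exp ((A' + 1) * x)) (ρ : Measure ℝ) →
      Integrable (fun x => Real.exp (-(A' + 1) * x)) (ρ : Measure ℝ) → Integrable f (ρ : Measure ℝ) := by
    intro ρ h1 h2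
    refine Integrable.mono' ((h1.add h2).const_mul C) hf.aestronglyMeasurable (Eventually.of_forall fun x => ?_)
    rw [Real.norm_eq_abs]
    refine (hb' x).trans (mul_le_mul_of_nonneg_left ?_ hC)
    show Real.exp (A' * |x|) ≤ Real.exp ((A' + 1) * x) + Real.exp (-(A' + 1) * x)
    rcases le_total 0 x with h0 | h0
    · rw [abs_of_nonneg h0]
      have := Real.exp_pos (-(A' + 1) * x)
      have h3 : Real.exp (A' * x) ≤ Real.exp ((A' + 1) * x) := Real.exp_le_exp.2 (by nlinarith)
      linarith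
    · rw [abs_of_nonpos h0]
      have := Real.exp_pos ((A' + 1) * x)
      have h3 : Real.exp (A' * -x) ≤ Real.exp (-(A' + 1) * x) := Real.exp_le_exp.2 (by nlinarith)
      linarith
  have near : ∀ (ρ : ProbabilityMeasure ℝ) (R : ℝ), Integrable (fun x => Real.exp ((A' + 1) * x)) (ρ : Measure ℝ) →
      Integrable (fun x => Real.exp (-(A' + 1) * x)) (ρ : Measure ℝ) →
      |∫ x, f x ∂(ρ : Measure ℝ) - ∫ x, tr f hf (C * Real.exp (A' * R)) (by positivity) x ∂(ρ : Measure ℝ)| ≤
        C * Real.exp (-R) * (∫ x, Real.exp ((A' + 1) * x) ∂(ρ : Measure ℝ) +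
          ∫ x, Real.exp (-(A' + 1) * x) ∂(ρ : Measure ℝ)) := by
    intro ρ R h1 h2
    have h3 : Integrable (tr f hf (C * Real.exp (A' * R)) (by positivity)) (ρ : Measure ℝ) :=
      BoundedContinuousFunction.integrable _ _
    rw [← integral_sub (hfi ρ h1 h2) h3, ← integral_add h1 h2, ← integral_const_mul]
    refine (abs_integral_le_integral_abs).trans (integral_mono ((hfi ρ h1 h2).sub h3).abs
      ((h1.add h2).const_mul _) fun x => ?_)
    exact tr_near hf hC hA' hb' x
  rw [Metric.tendsto_nhds]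
  intro ε hε
  set G := ∫ x, Real.exp ((A' + 1) * x) ∂(ν : Measure ℝ) + ∫ x, Real.exp (-(A' + 1) * x) ∂(ν : Measure ℝ) with hG
  have hG0 : 0 ≤ G := add_nonneg (integral_nonneg fun x => (Real.exp_pos _).le)
    (integral_nonneg fun x => (Real.exp_pos _).le)
  obtain ⟨R, hR⟩ : ∃ R : ℝ, C * Real.exp (-R) * (G + 1) < ε / 3 := by
    have h1 : Tendsto (fun R : ℝ => C * Real.exp (-R) * (G + 1)) atTop (𝓝 (C * 0 * (G + 1))) :=
      (Real.tendsto_exp_neg_atTop_nhds_zero.const_mul C).mul_const _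
    rw [mul_zero, zero_mul] at h1
    exact (h1.eventually (gt_mem_nhds (by positivity))).exists
  have hk : 0 ≤ C * Real.exp (-R) := by positivity
  have e1 : ∀ᶠ i in l, ∫ x, Real.exp ((A' + 1) * x) ∂(μ i : Measure ℝ) +
      ∫ x, Real.exp (-(A' + 1) * x) ∂(μ i : Measure ℝ) ≤ G + 1 :=
    ((h (A' + 1)).add (h (-(A' + 1)))).eventually (ge_mem_nhds (by linarith))
  have e2 := (Metric.tendsto_nhds.1 (hF (tr f hf (C * Real.exp (A' * R)) (by positivity)))) (ε / 3) (by positivity)
  filter_upwards [hi (A' + 1), hi (-(A' + 1)), e1, e2] with i a1 a2 a3 a4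
  have n1 := near (μ i) R a1 a2
  have n2 := near ν R (hν _) (hν _)
  rw [Real.dist_eq] at a4 ⊢
  have n3 : C * Real.exp (-R) * (∫ x, Real.exp ((A' + 1) * x) ∂(μ i : Measure ℝ) +
      ∫ x, Real.exp (-(A' + 1) * x) ∂(μ i : Measure ℝ)) ≤ C * Real.exp (-R) * (G + 1) :=
    mul_le_mul_of_nonneg_left a3 hk
  have n4 : C * Real.exp (-R) * G ≤ C * Real.exp (-R) * (G + 1) := mul_le_mul_of_nonneg_left (by linarith) hk
  rw [abs_lt] at a4 ⊢
  rw [abs_le] at n1 n2
  constructor <;> linarith [n1.1, n1.2, n2.1, n2.2, a4.1, a4.2]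

/-! ## Weighted laws -/

/-- the law of `X` under the density `w / ∫ w` on `(0, 1]` -/
def wm (w X : ℝ → ℝ) : Measure ℝ :=
  ((volume.restrict (Set.Ioc (0:ℝ) 1)).withDensity fun u => ENNReal.ofReal (w u / ∫ v in (0:ℝ)..1, w v)).map X

variable {w X : ℝ → ℝ}

lemma dens_meas (hw : Continuous w) : Measurable fun u => ENNReal.ofReal (w u / ∫ v in (0:ℝ)..1, w v) :=
  ENNReal.measurable_ofReal.comp (hw.measurable.div_const _)

lemma wint (hw : Continuous w) : Integrable w (volume.restrict (Set.Ioc (0:ℝ) 1)) :=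
  (intervalIntegrable_iff_integrableOn_Ioc_of_le zero_le_one).1 (hw.intervalIntegrable 0 1)

lemma wm_prob (hw : Continuous w) (hw0 : ∀ u, 0 ≤ w u) (hM : 0 < ∫ v in (0:ℝ)..1, w v) (hX : Measurable X) :
    IsProbabilityMeasure (wm w X) := by
  constructor
  unfold wm
  rw [Measure.map_apply hX MeasurableSet.univ, Set.preimage_univ, withDensity_apply _ MeasurableSet.univ,
    Measure.restrict_univ, ← ofReal_integral_eq_lintegral_ofReal ((wint hw).div_const _)
      (Eventually.of_forall fun u => div_nonneg (hw0 u) hM.le), integral_div,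
    ← intervalIntegral.integral_of_le zero_le_one, div_self hM.ne', ENNReal.ofReal_one]

lemma wm_int (hw : Continuous w) (hw0 : ∀ u, 0 ≤ w u) (hM : 0 < ∫ v in (0:ℝ)..1, w v) (hX : Measurable X)
    {f : ℝ → ℝ} (hf : Measurable f) :
    ∫ y, f y ∂(wm w X) = (∫ u in (0:ℝ)..1, f (X u) * w u) / ∫ v in (0:ℝ)..1, w v := by
  unfold wm
  rw [integral_map hX.aemeasurable hf.aestronglyMeasurable,
    integral_withDensity_eq_integral_toReal_smul (dens_meas hw) (Eventually.of_forall fun u => ENNReal.ofReal_lt_top),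
    intervalIntegral.integral_of_le zero_le_one (f := fun u => f (X u) * w u), ← integral_div]
  refine integral_congr_ae (Eventually.of_forall fun u => ?_)
  show (ENNReal.ofReal (w u / ∫ v in (0:ℝ)..1, w v)).toReal • f (X u) = f (X u) * w u / ∫ v in (0:ℝ)..1, w v
  rw [ENNReal.toReal_ofReal (div_nonneg (hw0 u) hM.le), smul_eq_mul]
  ring

lemma wm_integrable (hw : Continuous w) (hw0 : ∀ u, 0 ≤ w u) (hM : 0 < ∫ v in (0:ℝ)..1, w v) (hX : Measurable X)
    {f : ℝ → ℝ} (hf : Measurable f) (hi : IntegrableOn (fun u => f (X u) * w u) (Set.Ioc 0 1)) :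
    Integrable f (wm w X) := by
  unfold wm
  rw [integrable_map_measure hf.aestronglyMeasurable hX.aemeasurable,
    integrable_withDensity_iff_integrable_smul' (dens_meas hw) (Eventually.of_forall fun u => ENNReal.ofReal_lt_top)]
  refine (hi.div_const (∫ v in (0:ℝ)..1, w v)).congr (Eventually.of_forall fun u => ?_)
  show f (X u) * w u / (∫ v in (0:ℝ)..1, w v) = (ENNReal.ofReal (w u / ∫ v in (0:ℝ)..1, w v)).toReal • f (X u)
  rw [ENNReal.toReal_ofReal (div_nonneg (hw0 u) hM.le), smul_eq_mul]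
  ring

/-- the standard normal law -/
def gs : ProbabilityMeasure ℝ := ⟨gaussianReal 0 1, inferInstance⟩

lemma gs_exp (s : ℝ) : ∫ x, Real.exp (s * x) ∂(gs : Measure ℝ) = Real.exp (s ^ 2 / 2) := by
  have h := congrFun (mgf_id_gaussianReal (μ := 0) (v := 1)) s
  unfold mgf at h
  simp only [id, NNReal.coe_one, zero_mul, zero_add, one_mul] at h
  exact h

lemma gs_int (s : ℝ) : Integrable (fun x => Real.exp (s * x)) (gs : Measure ℝ) :=
  integrable_exp_mul_gaussianReal s

end

end Pool.Agent.V11273.WC
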